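import Pool.Agent.helper62.MS.SpecD

/-!
# MP_07c750, project MS, row ms:NC2
-/

set_option autoImplicit false

open scoped MatrixGroups ContDiff Topology UpperHalfPlane ENNReal
open UpperHalfPlane MeasureTheory Filter Set

namespace Pool.Agent.MS

open Pool.Agent.EN (XG MG mkX mkM fl pr)

theorem NC2_proof (h1 : LL.KAT_stmt) (h2 : LL.ENG_stmt) : NC2_stmt := by
  intro Γ μ p P J ε α E hΓ hμ hinv hP hJ hε hε8 hα hα1 hE hsmall hcyl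
  have key : ∀ κ : ℝ, 0 < κ → μ ({x | α / 2 + 3 * ε < J x} ∩ pr Γ ⁻¹' E) ≤ ENNReal.ofReal κ := by
    intro κ hκ
    obtain ⟨G, r, C, hG, hGJ, hGκ, hr, hr1, hbox⟩ :=
      h1 Γ μ p P J ε (α / 2 + 3 * ε) κ hΓ hμ hinv hP hJ hε hκ (by linarith) hcyl
    have hbox' : ∀ (q : XG Γ) (τ : ℝ), 0 < τ → τ ≤ r → μ.real (G ∩ LL.Bx Γ r τ q) ≤ C * τ ^ (α + 2 * ε) := by
      intro q τ hτ hτr
      have h3 := hbox q τ hτ hτr
      rwa [show 2 * (α / 2 + 3 * ε - 2 * ε) = α + 2 * ε by ring] at h3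
    have h4 : μ (G ∩ pr Γ ⁻¹' E) = 0 :=
      h2 Γ μ G E r C (α + 2 * ε) α hΓ hμ hinv hG hE hr hr1 hα (by linarith) (by linarith) hsmall hbox'
    have h5 : {x | α / 2 + 3 * ε < J x} ∩ pr Γ ⁻¹' E ⊆
        (G ∩ pr Γ ⁻¹' E) ∪ ({x | α / 2 + 3 * ε < J x} \ G) := by
      rintro x ⟨hx, hxE⟩
      by_cases hxG : x ∈ G
      · exact Or.inl ⟨hxG, hxE⟩
      · exact Or.inr ⟨hx, hxG⟩
    calc μ ({x | α / 2 + 3 * ε < J x} ∩ pr Γ ⁻¹' E)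
        ≤ μ ((G ∩ pr Γ ⁻¹' E) ∪ ({x | α / 2 + 3 * ε < J x} \ G)) := measure_mono h5
      _ ≤ μ (G ∩ pr Γ ⁻¹' E) + μ ({x | α / 2 + 3 * ε < J x} \ G) := measure_union_le _ _
      _ ≤ 0 + ENNReal.ofReal κ := add_le_add h4.le hGκ
      _ = ENNReal.ofReal κ := zero_add _
  refine le_antisymm (ENNReal.le_of_forall_pos_le_add fun κ hκ _ => ?_) bot_le
  rw [zero_add]
  have h6 := key κ (by exact_mod_cast hκ)
  rwa [ENNReal.ofReal_coe_nnreal] at h6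

end Pool.Agent.MS
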