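import Pool.Agent.helper62.MS.SpecE

/-!
# MP_07c750, project MS, row ms:NCH
-/

set_option autoImplicit false

open scoped MatrixGroups Topology UpperHalfPlane ENNReal
open UpperHalfPlane MeasureTheory Filter Set

namespace Pool.Agent.MS

open Pool.Agent.EN (XG MG mkX mkM fl pr Hn)
open Pool.Agent.LL (Sys cyl)

theorem NCH_proof (h1 : LL.KAT_stmt) (h2 : LL.ENG_stmt) : NCH_stmt := by
  intro Γ μ p P J ε E hΓ hμ hinv hP hJ hε hε8 hE hdim hcyl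
  have key : ∀ κ : ℝ, 0 < κ → μ ({x | 4 * ε < J x} ∩ pr Γ ⁻¹' E) ≤ ENNReal.ofReal κ := by
    intro κ hκ
    obtain ⟨G, r, C, hG, hGJ, hGκ, hr, hr1, hbox⟩ := h1 Γ μ p P J ε (4 * ε) κ hΓ hμ hinv hP hJ hε hκ (by linarith) hcyl
    have hbox' : ∀ (q : XG Γ) (τ : ℝ), 0 < τ → τ ≤ r → μ.real (G ∩ LL.Bx Γ r τ q) ≤ C * τ ^ (4 * ε) := by
      intro q τ hτ hτr
      have h3 := hbox q τ hτ hτr
      rwa [show 2 * (4 * ε - 2 * ε) = 4 * ε by ring] at h3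
    have h4 : μ (G ∩ pr Γ ⁻¹' E) = 0 :=
      h2 Γ μ G E r C (4 * ε) ε hΓ hμ hinv hG hE hr hr1 hε (by linarith) (by linarith)
        (Or.inr ⟨by linarith, hdim ε hε⟩) hbox'
    have h5 : {x | 4 * ε < J x} ∩ pr Γ ⁻¹' E ⊆ (G ∩ pr Γ ⁻¹' E) ∪ ({x | 4 * ε < J x} \ G) := by
      rintro x ⟨hx, hxE⟩
      by_cases hxG : x ∈ G
      · exact Or.inl ⟨hxG, hxE⟩
      · exact Or.inr ⟨hx, hxG⟩
    calc μ ({x | 4 * ε < J x} ∩ pr Γ ⁻¹' E) ≤ μ ((G ∩ pr Γ ⁻¹' E) ∪ ({x | 4 * ε < J x} \ G)) := measure_mono h5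
      _ ≤ μ (G ∩ pr Γ ⁻¹' E) + μ ({x | 4 * ε < J x} \ G) := measure_union_le _ _
      _ ≤ 0 + ENNReal.ofReal κ := add_le_add h4.le hGκ
      _ = ENNReal.ofReal κ := zero_add _
  refine le_antisymm (ENNReal.le_of_forall_pos_le_add fun κ hκ _ => ?_) bot_le
  rw [zero_add]
  have h6 := key κ (by exact_mod_cast hκ)
  rwa [ENNReal.ofReal_coe_nnreal] at h6

end Pool.Agent.MS
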